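import Pool.Agent.helper69.AD.GS5

/-!
Module FC1: consecutive crossings are joined by a seam or a wave.
-/

set_option autoImplicit false

open scoped MatrixGroups LinearAlgebra.Projectivization
open Matrix UpperHalfPlane
open Pool.Agent.helper73.AD (PS Arc Word sg AData Family PreFamily Cone bs)

namespace AdSBend

noncomputable section

open LeafSystem

theorem FC1_linked (hBD12 : BD12_stmt) (x y x' y' : Bd) :
    Linked y x y' x' ↔ Linked x y x' y' := by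
  obtain ⟨-, -, -, -, -, -, -, -, -, h1, h2⟩ := hBD12
  rw [← h2, h1 x y y' x', h2 y' x' x y, h1 x' y' x y]

theorem FC1 (hGM1 : GM1_stmt) (hBD12 : BD12_stmt) (hHX1 : HX1_stmt) (hHX8 : HX8_stmt) :
    FC1_stmt := by
  intro Γ hΓ S hS J D l p p' hl hcop hb1 hb2
  obtain ⟨hrot, hshift, -, -, -, -, -⟩ := hHX1 Γ hΓ S
  have hp : p ∈ S.L := hcop.1
  have hp' : p' ∈ S.L := by
    have := S.swap _ hcop.2.1
    simpa using this
  have hun : ∀ γ ∈ Γ, ¬ Linked l.2 l.1 (γ • l.2) (γ • l.1) := by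
    intro γ hγ h
    exact hl.2 γ hγ ((FC1_linked hBD12 l.1 l.2 (γ • l.1) (γ • l.2)).mp h)
  rcases hHX8 Γ hΓ S hS p (sw p') l.2 l.1 hcop hb1 hb2 hun with ⟨r, hr⟩ | ⟨x, y, hxy, hsw⟩
  · refine ⟨sw p', p, Arc.seam (D.cls p) (D.cls p') (D.cls r), Or.inl ⟨r, hr, rfl, rfl, rfl⟩,
      ⟨r, hr⟩, ⟨r, hr.symm⟩, rfl, rfl⟩
  · have h1 := hrot _ _ _ hxy
    have h2 := hrot _ _ _ h1
    have h3 := hshift _ _ _ h2
    have h4 := hrot _ _ _ h3
    have h5 := hrot _ _ _ h4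
    have hy : y ∈ S.L := h2.1.1
    have hgy : gen Γ y ∈ Γ := (hGM1 Γ hΓ y (S.closed y hy)).1
    have hcls : D.cls p' = D.cls p := by
      have e1 := D.cls_sw p' hp'
      have e2 := D.cls_ga _ hgy p hp
      rw [← e1, hsw, e2]
    refine ⟨y, y, Arc.wave (D.cls p) (D.cls y) (D.cls x),
      Or.inr ⟨x, y, hxy, hsw, rfl, rfl, rfl⟩, ⟨x, Or.inr h2⟩, ?_, rfl, ?_⟩
    · rw [hsw]
      exact ⟨x, Or.inl h5⟩
    · rw [hcls]
      rfl

end

end AdSBend
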