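import Pool.Agent.helper69.AD.GS3

/-!
Module TW2: twist deformations exist and give representations.
-/

set_option autoImplicit false

open scoped MatrixGroups LinearAlgebra.Projectivization
open Matrix UpperHalfPlane

namespace AdSBend

noncomputable section

theorem TW2_neg {g h : SL(2, ℝ)} (hgh : PEq g h) : PEq h g := by
  rcases hgh with h1 | h1
  · left; exact h1.symm
  · right; rw [h1, neg_neg]

theorem TW2_trans {g h k : SL(2, ℝ)} (h1 : PEq g h) (h2 : PEq h k) : PEq g k := by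
  rcases h1 with h1 | h1 <;> rcases h2 with h2 | h2
  · left; rw [h1, h2]
  · right; rw [h1, h2]
  · right; rw [h1, h2]
  · left; rw [h1, h2, neg_neg]

theorem TW2_mulr {g h : SL(2, ℝ)} (k : SL(2, ℝ)) (hgh : PEq g h) : PEq (g * k) (h * k) := by
  rcases hgh with h1 | h1
  · left; rw [h1]
  · right; rw [h1, neg_mul]

theorem TW2_mull {g h : SL(2, ℝ)} (k : SL(2, ℝ)) (hgh : PEq g h) : PEq (k * g) (k * h) := by
  rcases hgh with h1 | h1
  · left; rw [h1]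
  · right; rw [h1, mul_neg]

theorem TW2_one {Γ : Subgroup SL(2, ℝ)} {r : SL(2, ℝ) → SL(2, ℝ)} (hr : IsPRep Γ r) :
    PEq (r 1) 1 := by
  have h := hr 1 Γ.one_mem 1 Γ.one_mem 1 Γ.one_mem (Or.inl (by rw [one_mul]))
  have h2 := TW2_mulr (r 1)⁻¹ h
  rw [mul_inv_cancel, mul_assoc, mul_inv_cancel, mul_one] at h2
  exact TW2_neg h2

theorem TW2_inv {Γ : Subgroup SL(2, ℝ)} {r : SL(2, ℝ) → SL(2, ℝ)} (hr : IsPRep Γ r)
    {γ δ : SL(2, ℝ)} (hγ : γ ∈ Γ) (hδ : δ ∈ Γ) (h : PEq δ γ⁻¹) : PEq (r δ) (r γ)⁻¹ := by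
  have h1 : PEq 1 (γ * δ) := by
    have := TW2_mull γ h
    rw [mul_inv_cancel] at this
    exact TW2_neg this
  have h2 := hr γ hγ δ hδ 1 Γ.one_mem h1
  have h3 : PEq (r γ * r δ) 1 := TW2_trans (TW2_neg h2) (TW2_one hr)
  have h4 := TW2_mull (r γ)⁻¹ h3
  rwa [← mul_assoc, inv_mul_cancel, one_mul, mul_one] at h4

theorem TW2_conj {Γ : Subgroup SL(2, ℝ)} {r : SL(2, ℝ) → SL(2, ℝ)} (hr : IsPRep Γ r)
    {γ δ ε : SL(2, ℝ)} (hγ : γ ∈ Γ) (hδ : δ ∈ Γ) (hε : ε ∈ Γ) (h : PEq ε (γ * δ * γ⁻¹)) :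
    PEq (r ε) (r γ * r δ * (r γ)⁻¹) := by
  have h1 : PEq (ε * γ) (γ * δ) := by
    have := TW2_mulr γ h
    rwa [inv_mul_cancel_right] at this
  have h2 := hr γ hγ δ hδ (ε * γ) (Γ.mul_mem hε hγ) h1
  have h3 := hr ε hε γ hγ (ε * γ) (Γ.mul_mem hε hγ) (Or.inl rfl)
  have h4 := TW2_mulr (r γ)⁻¹ (TW2_trans (TW2_neg h3) h2)
  rwa [mul_inv_cancel_right] at h4

theorem TW2_trc_neg (g : SL(2, ℝ)) : |trc (-g)| = |trc g| := by
  have : trc (-g) = - trc g := by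
    unfold trc
    simp [SpecialLinearGroup.coe_neg]
    ring
  rw [this, abs_neg]

theorem TW2 (hGM1 : GM1_stmt) (hGM2 : GM2_stmt) (hPN3 : PN3_stmt) (hPN5 : PN5_stmt)
    (hPM1 : PM1_stmt) (hPM2 : PM2_stmt) (hPM3 : PM3_stmt) (hTW1 : TW1_stmt) : TW2_stmt := by
  intro Γ hΓ S r T z₀ hr htr hTinv hTsw hz₀
  obtain ⟨-, hconj, hprop, -⟩ := hTW1
  obtain ⟨-, hGeq, hGsw⟩ := hGM2 Γ hΓ
  have hgen : ∀ p ∈ S.L, IsGen Γ p (gen Γ p) := fun p hp => hGM1 Γ hΓ p (S.closed p hp)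
  have hmem : ∀ p ∈ S.L, gen Γ p ∈ Γ := fun p hp => (hgen p hp).1
  -- values of twS up to sign
  have htwS : ∀ (g g' : SL(2, ℝ)) (s : ℝ), 2 < |trc g| → PEq g' g → twS g' s = twS g s := by
    intro g g' s hg h
    rcases h with h | h
    · rw [h]
    · rw [h]
      exact (hprop g s 0 hg).2.2.1
  have hE : ∀ p ∈ S.L, (fun p => twS (r (gen Γ p)) (-T p)) (p.2, p.1)
      = ((fun p => twS (r (gen Γ p)) (-T p)) p)⁻¹ := by
    intro p hp
    have hp' := S.swap p hp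
    have h1 : PEq (r (gen Γ (p.2, p.1))) (r (gen Γ p))⁻¹ :=
      TW2_inv hr (hmem p hp) (hmem _ hp') (hGsw p (S.closed p hp))
    have h2 := hTsw p hp
    have htr' := htr p hp
    have key := hprop (r (gen Γ p)) (-T p) 0 htr'
    have hinvtr : 2 < |trc (r (gen Γ p))⁻¹| := by
      have : trc (r (gen Γ p))⁻¹ = trc (r (gen Γ p)) := by
        unfold trc
        rw [SpecialLinearGroup.SL2_inv_expl]
        simp
        ring
      rw [this]; exact htr'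
    have h3 := htwS _ _ (-T (p.2, p.1)) hinvtr h1
    show twS (r (gen Γ (p.2, p.1))) (-T (p.2, p.1)) = (twS (r (gen Γ p)) (-T p))⁻¹
    rw [h3]
    have h4 : T (p.2, p.1) = T p := h2
    rw [h4, key.1, key.2.2.2.2.2.2]
  have hEconj : ∀ γ ∈ Γ, ∀ p ∈ S.L, (fun p => twS (r (gen Γ p)) (-T p)) (γ • p.1, γ • p.2)
      = r γ * (fun p => twS (r (gen Γ p)) (-T p)) p * (r γ)⁻¹ := by
    intro γ hγ p hp
    have hp' := S.inv γ hγ p hp
    have h1 : PEq (r (gen Γ (γ • p.1, γ • p.2))) (r γ * r (gen Γ p) * (r γ)⁻¹) :=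
      TW2_conj hr hγ (hmem p hp) (hmem _ hp') (hGeq p (S.closed p hp) γ hγ)
    have h2 : T (γ • p.1, γ • p.2) = T p := hTinv γ hγ p hp
    have htr' := htr p hp
    show twS (r (gen Γ (γ • p.1, γ • p.2))) (-T (γ • p.1, γ • p.2))
      = r γ * twS (r (gen Γ p)) (-T p) * (r γ)⁻¹
    rw [h2]
    rcases h1 with h1 | h1
    · rw [h1]
      exact (hconj _ _ _ htr').1
    · have h3 : -(r γ * r (gen Γ p) * (r γ)⁻¹) = r γ * (-(r (gen Γ p))) * (r γ)⁻¹ := by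
        rw [mul_neg, neg_mul]
      rw [h1, h3, (hconj (-(r (gen Γ p))) (r γ) (-T p) (by rw [TW2_trc_neg]; exact htr')).1,
        (hprop (r (gen Γ p)) (-T p) 0 htr').2.2.1]
  refine ⟨hPM1 Γ hΓ S _ hE z₀ hz₀, ?_⟩
  intro A hA
  obtain ⟨hAp, hA0⟩ := hA
  obtain ⟨hq1, hq2⟩ := hPM3 Γ hΓ S _ A r hr hAp hEconj
  have hb : ∀ γ ∈ Γ, ∀ z, S.OffPt z → A (γ • z) * r γ * (A z)⁻¹ = A (γ • z₀) * r γ := by
    intro γ hγ z hz
    have := hq1 γ hγ z z₀ hz hz₀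
    rw [this, hA0, inv_one, mul_one]
  have hd : ∀ γ ∈ Γ, ∀ z, S.OffPt z → S.SamePl z (γ • z) →
      A (γ • z₀) * r γ = A z * r γ * (A z)⁻¹ := by
    intro γ hγ z hz hs
    rw [← hb γ hγ z hz, ← hAp.1 z (γ • z) hz ((hPN5 Γ S).2.2.1 γ hγ z hz) hs]
  refine ⟨?_, ?_, ?_, ?_, ?_⟩
  · have := hq2 z₀ hz₀
    rw [hA0] at this
    simpa using this
  · intro γ hγ z hz
    exact Or.inl (hb γ hγ z hz)
  · intro p hp z hz
    refine Or.inl (hd (gen Γ p) (hmem p hp) z hz.1 ?_)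
    have h1 := (hPN5 Γ S).2.2.2.2.2.1 (gen Γ p) (hmem p hp) p z hz
    have hg := (hgen p hp).2.1
    rw [hg.2.1, hg.2.2.1] at h1
    exact (hPN3 Γ hΓ S p hp).2.2.1 z _ hz h1
  · intro γ hγ z hz hs
    exact Or.inl (hd γ hγ z hz hs)
  · intro hT z hz
    have hone : S.IsPlaqueMap (fun p => twS (r (gen Γ p)) (-T p)) (fun _ => 1) := by
      refine ⟨fun _ _ _ _ _ => rfl, ?_⟩
      intro z z' p _ _ hac
      have := (hprop (r (gen Γ p)) 0 0 (htr p hac.1)).2.2.2.2.2.1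
      show (1 : SL(2, ℝ)) = 1 * twS (r (gen Γ p)) (-T p)
      rw [hT, Pi.zero_apply, neg_zero, this, mul_one]
    have := hPM2 Γ hΓ S _ _ _ hAp hone z₀ z hz₀ hz
    rw [hA0] at this
    simpa using this

end

end AdSBend
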